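import Pool.Agent.K9h61.CL.Stm

/-!
# Most cubic graphs are not close to bipartite (LEAF N)
-/

open scoped Classical

namespace K9h61.CL

open H994K

/-- the pairings which respect `T` and exchange `A` and its complement outside of `T` -/
noncomputable def NK {P : Type*} [Fintype P] (A T : Finset P) : Finset (Equiv.Perm P) :=
  (H994K.Inv P).filter (fun σ => (∀ x ∈ T, σ x ∈ T) ∧ ∀ x, x ∉ T → (x ∈ A ↔ σ x ∉ A))

lemma mem_NK {P : Type*} [Fintype P] {A T : Finset P} {σ : Equiv.Perm P} :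
    σ ∈ NK A T ↔ σ ∈ H994K.Inv P ∧ (∀ x ∈ T, σ x ∈ T) ∧ ∀ x, x ∉ T → (x ∈ A ↔ σ x ∉ A) := by
  unfold NK
  rw [Finset.mem_filter]

lemma card_Inv_le {α : Type*} [Fintype α] {p : ℕ} (h : Fintype.card α = 2 * p) :
    (H994K.Inv α).card ≤ 2 ^ p * p.factorial := by
  have h1 := card_Inv h
  have h2 : p.centralBinom * (p.factorial * p.factorial) = (2 * p).factorial := by
    have := Nat.choose_mul_factorial_mul_factorial (show p ≤ 2 * p by omega)
    rw [show 2 * p - p = p by omega] at this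
    rw [← this, Nat.centralBinom]
    ring
  have h3 : p.centralBinom ≤ 4 ^ p := by
    have h4 : (2 * p).choose p ≤ 2 ^ (2 * p) := Nat.choose_le_two_pow _ _
    rw [Nat.centralBinom]
    calc _ ≤ _ := h4
      _ = 4 ^ p := by rw [pow_mul]; norm_num
  have h5 : (H994K.Inv α).card * (2 ^ p * p.factorial) ≤ (2 ^ p * p.factorial) * (2 ^ p * p.factorial) := by
    rw [h1, ← h2]
    calc p.centralBinom * (p.factorial * p.factorial) ≤ 4 ^ p * (p.factorial * p.factorial) :=
          Nat.mul_le_mul_right _ h3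
      _ = _ := by
        rw [show (4 : ℕ) = 2 * 2 by norm_num, mul_pow]; ring
  exact Nat.le_of_mul_le_mul_right h5 (by positivity)

lemma card_NK {P : Type*} [Fintype P] {n : ℕ} (hP : Fintype.card P = 2 * n) (A T : Finset P) :
    (NK A T).card ≤ n.factorial * 2 ^ T.card := by
  by_cases hne : (NK A T).Nonempty
  swap
  · rw [Finset.not_nonempty_iff_eq_empty] at hne
    rw [hne, Finset.card_empty]
    exact Nat.zero_le _
  obtain ⟨σ₀, hσ₀⟩ := hne
  set Q : Finset P := Finset.univ.filter (fun x => x ∉ T ∧ x ∈ A) with hQ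
  set Q' : Finset P := Finset.univ.filter (fun x => x ∉ T ∧ x ∉ A) with hQ'
  have hT : ∀ σ ∈ NK A T, ∀ x, x ∈ T ↔ σ x ∈ T := by
    intro σ hσ x
    unfold NK at hσ
    rw [Finset.mem_filter, mem_Inv] at hσ
    constructor
    · exact hσ.2.1 x
    · intro h
      have := hσ.2.1 _ h
      rwa [hσ.1.2] at this
  have hQQ : ∀ σ ∈ NK A T, ∀ x, x ∈ Q ↔ σ x ∈ Q' := by
    intro σ hσ x
    have h1 := hT σ hσ x
    have hσ' := hσ
    unfold NK at hσ
    rw [Finset.mem_filter, mem_Inv] at hσ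
    rw [hQ, hQ', Finset.mem_filter, Finset.mem_filter]
    constructor
    · rintro ⟨-, h2, h3⟩
      exact ⟨Finset.mem_univ _, fun h => h2 (h1.2 h), (hσ.2.2 x h2).1 h3⟩
    · rintro ⟨-, h2, h3⟩
      have h4 : x ∉ T := fun h => h2 (h1.1 h)
      exact ⟨Finset.mem_univ _, h4, (hσ.2.2 x h4).2 h3⟩
  have hQQ' : ∀ σ ∈ NK A T, ∀ x, x ∈ Q' → σ x ∈ Q := by
    intro σ hσ x hx
    rw [hQQ σ hσ]
    have h2 : σ (σ x) = x := by
      unfold NK at hσ
      rw [Finset.mem_filter, mem_Inv] at hσ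
      exact hσ.1.2 x
    rwa [h2]
  have e₀ : {x // x ∈ Q} ≃ {x // x ∈ Q'} := σ₀.subtypeEquiv (hQQ σ₀ hσ₀)
  -- counting
  have key : (NK A T).card ≤ (H994K.Inv {x // x ∈ T}).card *
      (Finset.univ : Finset ({x // x ∈ Q} ≃ {x // x ∈ Q'})).card := by
    rw [← Finset.card_product]
    apply Finset.card_le_card_of_injOn
      (fun σ => if h : (∀ x, x ∈ T ↔ σ x ∈ T) ∧ ∀ x, x ∈ Q ↔ σ x ∈ Q' then
        (σ.subtypePerm (fun x => (h.1 x).symm), σ.subtypeEquiv h.2) else (1, e₀))
    · intro σ hσ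
      rw [Finset.mem_coe] at hσ
      have h : (∀ x, x ∈ T ↔ σ x ∈ T) ∧ ∀ x, x ∈ Q ↔ σ x ∈ Q' := ⟨hT σ hσ, hQQ σ hσ⟩
      simp only [dif_pos h]
      unfold NK at hσ
      rw [Finset.mem_filter, mem_Inv] at hσ
      rw [Finset.mem_coe, Finset.mem_product, mem_Inv]
      refine ⟨⟨?_, ?_⟩, Finset.mem_univ _⟩
      · intro x hx
        exact hσ.1.1 x.1 (congrArg Subtype.val hx)
      · intro x
        apply Subtype.ext
        exact hσ.1.2 x.1
    · intro σ hσ τ hτ h
      rw [Finset.mem_coe] at hσ hτ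
      have hs : (∀ x, x ∈ T ↔ σ x ∈ T) ∧ ∀ x, x ∈ Q ↔ σ x ∈ Q' := ⟨hT σ hσ, hQQ σ hσ⟩
      have ht : (∀ x, x ∈ T ↔ τ x ∈ T) ∧ ∀ x, x ∈ Q ↔ τ x ∈ Q' := ⟨hT τ hτ, hQQ τ hτ⟩
      simp only [dif_pos hs, dif_pos ht, Prod.mk.injEq] at h
      have hq : ∀ y ∈ Q, σ y = τ y := by
        intro y hy
        have := congrArg (fun π => (π ⟨y, hy⟩).1) h.2
        exact this
      have i1 : ∀ x, σ (σ x) = x := by
        unfold NK at hσ
        rw [Finset.mem_filter, mem_Inv] at hσ
        exact hσ.1.2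
      have i2 : ∀ x, τ (τ x) = x := by
        unfold NK at hτ
        rw [Finset.mem_filter, mem_Inv] at hτ
        exact hτ.1.2
      ext x
      by_cases hx : x ∈ T
      · have := congrArg (fun π => (π ⟨x, hx⟩).1) h.1
        exact this
      · by_cases hA : x ∈ A
        · exact hq x (by rw [hQ, Finset.mem_filter]; exact ⟨Finset.mem_univ _, hx, hA⟩)
        · have h1 : x ∈ Q' := by rw [hQ', Finset.mem_filter]; exact ⟨Finset.mem_univ _, hx, hA⟩
          have h2 := hQQ' σ hσ x h1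
          have h3 := hq _ h2
          rw [i1] at h3
          have h4 := congrArg τ h3
          rw [i2] at h4
          exact h4.symm
  have hcard : (Finset.univ : Finset ({x // x ∈ Q} ≃ {x // x ∈ Q'})).card = Q.card.factorial := by
    rw [Finset.card_univ, Fintype.card_equiv e₀, Fintype.card_coe]
  rw [hcard] at key
  have hQc : Q.card = Q'.card := by
    have := Fintype.card_congr e₀
    rwa [Fintype.card_coe, Fintype.card_coe] at this
  have htot : T.card + (Q.card + Q'.card) = 2 * n := by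
    rw [← hP, ← Finset.card_univ]
    have h1 : T.card + (Finset.univ.filter (fun x => x ∉ T)).card = (Finset.univ : Finset P).card := by
      have := Finset.card_filter_add_card_filter_not (s := (Finset.univ : Finset P)) (fun x => x ∈ T)
      rw [← this]
      congr 2
      ext x
      simp
    have h2 : Q.card + Q'.card = (Finset.univ.filter (fun x : P => x ∉ T)).card := by
      have := Finset.card_filter_add_card_filter_not
        (s := (Finset.univ.filter (fun x : P => x ∉ T))) (fun x => x ∈ A)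
      rw [← this, Finset.filter_filter, Finset.filter_filter]
    rw [h2, h1]
  by_cases hev : Even (Fintype.card {x // x ∈ T})
  · obtain ⟨p, hp⟩ := hev
    have hp2 : Fintype.card {x // x ∈ T} = 2 * p := by omega
    have hpT : T.card = 2 * p := by rwa [Fintype.card_coe] at hp2
    have h1 := card_Inv_le hp2
    have h2 : p + Q.card = n := by omega
    have h3 : p.factorial * Q.card.factorial ≤ n.factorial := by
      rw [← h2]
      exact Nat.le_of_dvd (Nat.factorial_pos _) (Nat.factorial_mul_factorial_dvd_factorial_add _ _)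
    calc (NK A T).card ≤ (H994K.Inv {x // x ∈ T}).card * Q.card.factorial := key
      _ ≤ (2 ^ p * p.factorial) * Q.card.factorial := Nat.mul_le_mul_right _ h1
      _ = 2 ^ p * (p.factorial * Q.card.factorial) := by ring
      _ ≤ 2 ^ p * n.factorial := Nat.mul_le_mul_left _ h3
      _ ≤ 2 ^ T.card * n.factorial := by
        apply Nat.mul_le_mul_right
        exact Nat.pow_le_pow_right (by norm_num) (by omega)
      _ = _ := mul_comm _ _
  · rw [card_Inv_odd hev, zero_mul] at key
    omega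

lemma ins_add_bd {V : Type*} [Fintype V] {G : SimpleGraph V} (hG : Cubic G) (S : Finset V) :
    ins G S + bd G S = 3 * S.card := by
  unfold ins bd
  rw [← Finset.sum_add_distrib]
  have h : ∀ v ∈ S, (Finset.univ.filter (fun w => G.Adj v w ∧ w ∈ S)).card +
      (Finset.univ.filter (fun w => G.Adj v w ∧ w ∉ S)).card = 3 := by
    intro v _
    rw [← hG v, ← Finset.card_filter_add_card_filter_not
      (s := Finset.univ.filter (fun w => G.Adj v w)) (fun w => w ∈ S), Finset.filter_filter,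
      Finset.filter_filter]
  rw [Finset.sum_congr rfl h, Finset.sum_const, smul_eq_mul, mul_comm]

lemma Qs_ins {V : Type*} [Fintype V] {G : SimpleGraph V} (hG : Cubic G) (l : Lab G)
    (S : Finset V) : (Qs l S).card = ins G S := by
  have h1 := Qs_card l S
  have h2 := ins_add_bd hG S
  omega

lemma exists_NK {V : Type*} [Fintype V] {G : SimpleGraph V} (hG : Cubic G) (l : Lab G)
    (S : Finset V) : ∃ T : Finset (V × Fin 3), T.card ≤ ins G S + ins G Sᶜ ∧
      perm l ∈ NK (S ×ˢ (Finset.univ : Finset (Fin 3))) T := by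
  refine ⟨Qs l S ∪ Qs l Sᶜ, ?_, ?_⟩
  · have h1 := Finset.card_union_le (Qs l S) (Qs l Sᶜ)
    rwa [Qs_ins hG, Qs_ins hG] at h1
  · rw [mem_NK]
    refine ⟨perm_mem l, ?_, ?_⟩
    · intro x hx
      rw [Finset.mem_union] at hx ⊢
      exact hx.imp (Qs_stable l S x) (Qs_stable l Sᶜ x)
    · intro x hx
      rw [Finset.mem_union, not_or] at hx
      unfold Qs at hx
      simp only [Finset.mem_filter, Finset.mem_product, Finset.mem_univ, and_true,
        Finset.mem_compl, not_and, not_not] at hx ⊢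
      constructor
      · exact hx.1
      · intro h
        by_contra h1
        exact h (hx.2 h1)

lemma near_bound {m : ℕ} :
    (((cub (Fin (2 * m))).filter (fun G => NearBip G)).card : ℝ) * 36 ^ m
      ≤ 2 ^ (2 * m) * (((3 * m).factorial : ℝ) * (60 ^ (m / 25) * (31 / 30) ^ (6 * m))) := by
  set B : Finset (Equiv.Perm (Fin (2 * m) × Fin 3)) :=
    (Finset.univ : Finset (Finset (Fin (2 * m)))).biUnion (fun S =>
      ((Finset.univ : Finset (Finset (Fin (2 * m) × Fin 3))).filter
        (fun T => T.card ≤ m / 25)).biUnion (fun T =>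
          NK (S ×ˢ (Finset.univ : Finset (Fin 3))) T)) with hB
  have h1 : ((cub (Fin (2 * m))).filter (fun G => NearBip G)).card
      * 6 ^ Fintype.card (Fin (2 * m)) ≤ B.card := by
    apply count_le
    · intro G hG
      rw [Finset.mem_filter, mem_cub] at hG
      exact hG.1
    · intro G hG l
      rw [Finset.mem_filter, mem_cub] at hG
      obtain ⟨hc, S, hS⟩ := hG
      obtain ⟨T, hT1, hT2⟩ := exists_NK hc l S
      rw [Fintype.card_fin] at hS
      rw [hB, Finset.mem_biUnion]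
      refine ⟨S, Finset.mem_univ _, ?_⟩
      rw [Finset.mem_biUnion]
      refine ⟨T, ?_, hT2⟩
      rw [Finset.mem_filter]
      refine ⟨Finset.mem_univ _, ?_⟩
      omega
  rw [Fintype.card_fin, pow_mul] at h1
  norm_num at h1
  have h1' : (((cub (Fin (2 * m))).filter (fun G => NearBip G)).card : ℝ) * 36 ^ m
      ≤ (B.card : ℝ) := by exact_mod_cast h1
  refine h1'.trans ?_
  have hP : Fintype.card (Fin (2 * m) × Fin 3) = 2 * (3 * m) := by
    rw [Fintype.card_prod, Fintype.card_fin, Fintype.card_fin]; ring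
  have h2 : (B.card : ℝ) ≤ ∑ S : Finset (Fin (2 * m)),
      ∑ T ∈ (Finset.univ : Finset (Finset (Fin (2 * m) × Fin 3))).filter
        (fun T => T.card ≤ m / 25), (((3 * m).factorial : ℝ) * 2 ^ T.card) := by
    have h3 : B.card ≤ ∑ S : Finset (Fin (2 * m)),
      ∑ T ∈ (Finset.univ : Finset (Finset (Fin (2 * m) × Fin 3))).filter
        (fun T => T.card ≤ m / 25), ((3 * m).factorial * 2 ^ T.card) := by
      rw [hB]
      refine Finset.card_biUnion_le.trans (Finset.sum_le_sum fun S _ => ?_)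
      refine Finset.card_biUnion_le.trans (Finset.sum_le_sum fun T _ => ?_)
      exact card_NK hP _ T
    exact_mod_cast h3
  refine h2.trans ?_
  rw [Finset.sum_const, Finset.card_univ, Fintype.card_finset, Fintype.card_fin, nsmul_eq_mul]
  push_cast
  apply mul_le_mul_of_nonneg_left _ (by positivity)
  rw [← Finset.mul_sum]
  apply mul_le_mul_of_nonneg_left _ (by positivity)
  have h4 : ∀ T ∈ (Finset.univ : Finset (Finset (Fin (2 * m) × Fin 3))).filter
        (fun T => T.card ≤ m / 25), (2 : ℝ) ^ T.card ≤ 60 ^ (m / 25) * (1 / 30) ^ T.card := by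
    intro T hT
    rw [Finset.mem_filter] at hT
    have h5 : (2 : ℝ) ^ T.card = 60 ^ T.card * (1 / 30) ^ T.card := by
      rw [← mul_pow]; norm_num
    rw [h5]
    apply mul_le_mul_of_nonneg_right _ (by positivity)
    exact pow_le_pow_right₀ (by norm_num) hT.2
  refine (Finset.sum_le_sum h4).trans ?_
  rw [← Finset.mul_sum]
  apply mul_le_mul_of_nonneg_left _ (by positivity)
  refine (Finset.sum_le_sum_of_subset_of_nonneg (Finset.filter_subset _ _)
    (fun T _ _ => by positivity)).trans ?_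
  have h6 := Finset.sum_pow_mul_eq_add_pow (1 / 30 : ℝ) 1
    (Finset.univ : Finset (Fin (2 * m) × Fin 3))
  rw [Finset.powerset_univ, Finset.card_univ, hP] at h6
  simp only [one_pow, mul_one] at h6
  rw [h6]
  norm_num
  rw [show 2 * (3 * m) = 6 * m by ring]

lemma fact_le {m : ℕ} (hm : 1 ≤ m) :
    ((3 * m).factorial : ℝ) * 8 ^ m ≤ Dr m * (6 * m) := by
  have h1 := Nat.four_pow_le_two_mul_self_mul_centralBinom (3 * m) (by omega)
  have h2 : (3 * m).centralBinom * ((3 * m).factorial * (3 * m).factorial) = (6 * m).factorial := by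
    have := Nat.choose_mul_factorial_mul_factorial (show 3 * m ≤ 2 * (3 * m) by omega)
    rw [show 2 * (3 * m) - 3 * m = 3 * m by omega] at this
    rw [show 6 * m = 2 * (3 * m) by ring, ← this, Nat.centralBinom]
    ring
  have h1' : (4 : ℝ) ^ (3 * m) ≤ 2 * (3 * m) * ((3 * m).centralBinom : ℝ) := by
    exact_mod_cast h1
  have h2' : ((3 * m).centralBinom : ℝ) * (((3 * m).factorial : ℝ) * ((3 * m).factorial : ℝ))
      = ((6 * m).factorial : ℝ) := by exact_mod_cast h2
  unfold Dr
  rw [div_mul_eq_mul_div, le_div_iff₀ (by positivity), ← h2']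
  have e1 : (4 : ℝ) ^ (3 * m) = 8 ^ m * 2 ^ (3 * m) := by
    rw [pow_mul, pow_mul, ← mul_pow]; norm_num
  rw [e1] at h1'
  have hf : (0 : ℝ) ≤ ((3 * m).factorial : ℝ) * ((3 * m).factorial : ℝ) := by positivity
  have h3 := mul_le_mul_of_nonneg_left h1' hf
  calc ((3 * m).factorial : ℝ) * 8 ^ m * (2 ^ (3 * m) * ((3 * m).factorial : ℝ))
      = ((3 * m).factorial : ℝ) * ((3 * m).factorial : ℝ) * (8 ^ m * 2 ^ (3 * m)) := by ring
    _ ≤ _ := h3
    _ = _ := by ring

lemma near_bound2 {m : ℕ} (hm : 1 ≤ m) :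
    (((cub (Fin (2 * m))).filter (fun G => NearBip G)).card : ℝ) * 36 ^ m
      ≤ Dr m * (6 * m * (18 / 25) ^ m) := by
  refine near_bound.trans ?_
  have h1 : (60 : ℝ) ^ (m / 25) ≤ (118 / 100) ^ m := by
    calc (60 : ℝ) ^ (m / 25) ≤ ((118 / 100 : ℝ) ^ 25) ^ (m / 25) := by
          apply pow_le_pow_left₀ (by norm_num)
          norm_num
      _ = (118 / 100 : ℝ) ^ (25 * (m / 25)) := by rw [← pow_mul]
      _ ≤ (118 / 100 : ℝ) ^ m := pow_le_pow_right₀ (by norm_num) (by omega)
  have h2 := fact_le hm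
  have hD := Dr_pos m
  have h3 : (60 : ℝ) ^ (m / 25) * (31 / 30) ^ (6 * m) ≤ (118 / 100 * (31 / 30) ^ 6) ^ m := by
    rw [mul_pow, ← pow_mul]
    gcongr
  calc (2 : ℝ) ^ (2 * m) * (((3 * m).factorial : ℝ) * (60 ^ (m / 25) * (31 / 30) ^ (6 * m)))
      ≤ 2 ^ (2 * m) * (((3 * m).factorial : ℝ) * (118 / 100 * (31 / 30) ^ 6) ^ m) := by gcongr
    _ = (((3 * m).factorial : ℝ) * 8 ^ m) * (1 / 2 * (118 / 100 * (31 / 30) ^ 6)) ^ m := by
        have e : (2 : ℝ) ^ (2 * m) = 8 ^ m * (1 / 2) ^ m := by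
          rw [pow_mul, ← mul_pow]; norm_num
        rw [e, mul_pow (1 / 2 : ℝ)]
        ring
    _ ≤ (Dr m * (6 * m)) * (18 / 25) ^ m := by
        apply mul_le_mul h2 _ (by positivity) (by positivity)
        apply pow_le_pow_left₀ (by positivity)
        norm_num
    _ = _ := by ring

theorem t_N : S_N := by
  intro δ hδ
  obtain ⟨c, hc, hR⟩ := R_lower
  have hlim : Filter.Tendsto (fun n : ℕ => (n : ℝ) ^ 3 * (18 / 25 : ℝ) ^ n) Filter.atTop
      (nhds 0) := tendsto_pow_const_mul_const_pow_of_abs_lt_one 3 (by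
        rw [abs_of_pos (by norm_num)]; norm_num)
  have hε : 0 < δ * Real.sqrt c / 6 := by positivity
  obtain ⟨M, hM⟩ := Filter.eventually_atTop.1 (hlim.eventually (gt_mem_nhds hε))
  refine ⟨max M 3, ?_⟩
  intro m hm
  have hm3 : 3 ≤ m := le_trans (le_max_right _ _) hm
  have hmM : M ≤ m := le_trans (le_max_left _ _) hm
  have h0 := hM m hmM
  have h1 := near_bound2 (show 1 ≤ m by omega)
  have hD := Dr_pos m
  have hmR : (1 : ℝ) ≤ m := by exact_mod_cast (by omega : 1 ≤ m)
  have hRn := R_nonneg m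
  have h2 : Real.sqrt c ≤ R m * (m : ℝ) ^ 2 := by
    rw [Real.sqrt_le_left (by positivity)]
    refine (hR m hm3).trans ?_
    rw [mul_pow, ← pow_mul]
    apply mul_le_mul_of_nonneg_left _ (by positivity)
    exact pow_le_pow_right₀ hmR (by norm_num)
  have h3 : (gg m : ℝ) * 36 ^ m = R m * Dr m := by
    unfold R; field_simp
  have h4 : 6 * (m : ℝ) * (18 / 25) ^ m ≤ δ * R m := by
    have h5 : 6 * ((m : ℝ) ^ 3 * (18 / 25) ^ m) ≤ δ * (R m * (m : ℝ) ^ 2) := by
      have : δ * Real.sqrt c ≤ δ * (R m * (m : ℝ) ^ 2) := by gcongr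
      linarith
    have h6 : (6 * (m : ℝ) * (18 / 25) ^ m) * (m : ℝ) ^ 2 ≤ (δ * R m) * (m : ℝ) ^ 2 := by
      calc _ = 6 * ((m : ℝ) ^ 3 * (18 / 25) ^ m) := by ring
        _ ≤ _ := h5
        _ = _ := by ring
    exact le_of_mul_le_mul_right h6 (by positivity)
  set b : ℝ := (((cub (Fin (2 * m))).filter (fun G => NearBip G)).card : ℝ) with hb
  have h7 : b * 36 ^ m ≤ (δ * gg m) * 36 ^ m := by
    calc b * 36 ^ m ≤ Dr m * (6 * m * (18 / 25) ^ m) := h1
      _ ≤ Dr m * (δ * R m) := by gcongr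
      _ = δ * (gg m * 36 ^ m) := by rw [h3]; ring
      _ = _ := by ring
  exact le_of_mul_le_mul_right h7 (by positivity)

end K9h61.CL
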