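import Pool.Agent.K9h61.CL.Stm

/-! LEAF T (by helper90): most cubic graphs have few disjoint bad sets. -/

open scoped Classical

namespace K9h61.CL

open H994K

section T
variable {V : Type*} [Fintype V]

lemma bd_union {G : SimpleGraph V} {X Y : Finset V} (h : Disjoint X Y) :
    bd G (X ∪ Y) ≤ bd G X + bd G Y := by
  unfold bd
  rw [Finset.sum_union h]
  apply Nat.add_le_add
  · apply Finset.sum_le_sum
    intro v _
    apply Finset.card_le_card
    intro w hw
    rw [Finset.mem_filter] at hw ⊢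
    exact ⟨hw.1, hw.2.1, fun h1 => hw.2.2 (Finset.mem_union_left _ h1)⟩
  · apply Finset.sum_le_sum
    intro v _
    apply Finset.card_le_card
    intro w hw
    rw [Finset.mem_filter] at hw ⊢
    exact ⟨hw.1, hw.2.1, fun h1 => hw.2.2 (Finset.mem_union_right _ h1)⟩

/-- small sets with small boundary -/
noncomputable def Ys (G : SimpleGraph V) : Finset (Finset V) :=
  Finset.univ.filter (fun Y => (6 ≤ Y.card ∧ Y.card ≤ 1800) ∧ bd G Y ≤ 6)

lemma card_Ys {G : SimpleGraph V} {F : Finset (Finset V)} (hF : ∀ X ∈ F, Bad G X)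
    (hd : ∀ X ∈ F, ∀ Y ∈ F, X ≠ Y → Disjoint X Y) : F.card.choose 2 ≤ (Ys G).card := by
  rw [← Finset.card_powersetCard]
  apply Finset.card_le_card_of_injOn (fun P => P.biUnion id)
  · intro P hP
    rw [Finset.mem_coe, Finset.mem_powersetCard] at hP
    obtain ⟨hPF, hP2⟩ := hP
    obtain ⟨X, Y, hXY, rfl⟩ := Finset.card_eq_two.1 hP2
    have hX := hF X (hPF (by simp))
    have hY := hF Y (hPF (by simp))
    have hdis := hd X (hPF (by simp)) Y (hPF (by simp)) hXY
    have e : ({X, Y} : Finset (Finset V)).biUnion id = X ∪ Y := by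
      ext v; simp
    rw [Finset.mem_coe, Ys, Finset.mem_filter]
    simp only [e]
    rw [Finset.card_union_of_disjoint hdis]
    have h0 := bd_union (G := G) hdis
    obtain ⟨-, h1, h2, h3⟩ := hX
    obtain ⟨-, h4, h5, h6⟩ := hY
    exact ⟨Finset.mem_univ _, by omega, by omega⟩
  · intro P hP Q hQ h
    have key : ∀ P : Finset (Finset V), P ⊆ F → P = F.filter (fun Z => Z ⊆ P.biUnion id) := by
      intro P hPF
      ext Z
      rw [Finset.mem_filter]
      constructor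
      · intro hZ
        exact ⟨hPF hZ, Finset.subset_biUnion_of_mem id hZ⟩
      · rintro ⟨hZF, hZ⟩
        by_contra hZP
        obtain ⟨v, hv⟩ : Z.Nonempty := Finset.card_pos.1 (by have := (hF Z hZF).2.1; omega)
        obtain ⟨X, hX, hvX⟩ := Finset.mem_biUnion.1 (hZ hv)
        have hne : Z ≠ X := fun h => hZP (h ▸ hX)
        exact Finset.disjoint_left.1 (hd Z hZF X (hPF hX) hne) hv hvX
    rw [Finset.mem_coe, Finset.mem_powersetCard] at hP hQ
    have h' : P.biUnion id = Q.biUnion id := h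
    calc P = F.filter (fun Z => Z ⊆ P.biUnion id) := key P hP.1
      _ = F.filter (fun Z => Z ⊆ Q.biUnion id) := by rw [h']
      _ = Q := (key Q hQ.1).symm

/-- the pairings for which `Y` is a small set with small boundary -/
noncomputable def BY (Y : Finset V) : Finset (Equiv.Perm (V × Fin 3)) :=
  (Finset.range 7).biUnion fun b =>
    (Finset.powersetCard (3 * Y.card - b) (Y ×ˢ (Finset.univ : Finset (Fin 3)))).biUnion
      fun Q => Stab Q

lemma BY_card_le (Y : Finset V) : (BY Y).card ≤ ∑ b ∈ Finset.range 7,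
    ∑ Q ∈ Finset.powersetCard (3 * Y.card - b) (Y ×ˢ (Finset.univ : Finset (Fin 3))),
      (Stab Q).card := by
  rw [BY]
  refine Finset.card_biUnion_le.trans (Finset.sum_le_sum fun b _ => ?_)
  exact Finset.card_biUnion_le

lemma perm_mem_BY {G : SimpleGraph V} (l : Lab G) {Y : Finset V} (hY : Y ∈ Ys G) :
    perm l ∈ BY Y := by
  rw [Ys, Finset.mem_filter] at hY
  obtain ⟨-, ⟨h1, h2⟩, h3⟩ := hY
  have hQ := Qs_card l Y
  rw [BY, Finset.mem_biUnion]
  refine ⟨bd G Y, by rw [Finset.mem_range]; omega, ?_⟩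
  rw [Finset.mem_biUnion]
  refine ⟨Qs l Y, by rw [Finset.mem_powersetCard]; exact ⟨Qs_sub l Y, by omega⟩, ?_⟩
  rw [mem_Stab]
  exact ⟨perm_mem l, Qs_stable l Y⟩

/-- double counting -/
lemma count_pairs (s : Finset (SimpleGraph V)) (hs : ∀ G ∈ s, Cubic G) (L : ℕ)
    (hL : ∀ G ∈ s, L ≤ (Ys G).card) :
    s.card * 6 ^ Fintype.card V * L ≤
      ∑ Y ∈ Finset.univ.filter (fun Y : Finset V => 6 ≤ Y.card ∧ Y.card ≤ 1800), (BY Y).card := by
  have h1 : (s.sigma (fun G => (Finset.univ : Finset (Lab G)))).card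
      = s.card * 6 ^ Fintype.card V := by
    rw [Finset.card_sigma]
    have : ∀ G ∈ s, (Finset.univ : Finset (Lab G)).card = 6 ^ Fintype.card V := by
      intro G hG
      rw [Finset.card_univ, card_Lab (hs G hG)]
    rw [Finset.sum_congr rfl this, Finset.sum_const, smul_eq_mul]
  set S' := s.sigma (fun G => (Finset.univ : Finset (Lab G))) with hS'
  have h2 : S'.card * L ≤ (S'.sigma (fun x => Ys x.1)).card := by
    have h3 : (S'.sigma (fun x => Ys x.1)).card = ∑ x ∈ S', (Ys x.1).card :=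
      Finset.card_sigma _ _
    rw [h3, ← smul_eq_mul]
    apply Finset.card_nsmul_le_sum
    intro x hx
    rw [hS', Finset.mem_sigma] at hx
    exact hL x.1 hx.1
  rw [← h1]
  refine h2.trans ?_
  rw [← Finset.card_sigma]
  apply Finset.card_le_card_of_injOn
    (fun y : (_ : (G : SimpleGraph V) × Lab G) × Finset V =>
      (⟨y.2, perm y.1.2⟩ : (_ : Finset V) × Equiv.Perm (V × Fin 3)))
  · rintro ⟨x, Y⟩ hy
    rw [Finset.mem_coe, Finset.mem_sigma] at hy
    rw [Finset.mem_coe, Finset.mem_sigma]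
    refine ⟨?_, perm_mem_BY x.2 hy.2⟩
    have h3 := hy.2
    rw [Ys, Finset.mem_filter] at h3
    rw [Finset.mem_filter]
    exact ⟨Finset.mem_univ _, h3.2.1⟩
  · rintro ⟨x, Y⟩ _ ⟨x', Y'⟩ _ h
    rw [Sigma.mk.injEq] at h
    obtain ⟨h3, h4⟩ := h
    have h5 : x = x' := perm_inj (eq_of_heq h4)
    have h6 : Y = Y' := h3
    rw [h5, h6]

end T

lemma stab_le {m k b : ℕ} (hk : 6 ≤ k) (hkm : k ≤ m) (hb : b ≤ 6)
    (Q : Finset (Fin (2 * m) × Fin 3)) (hQ : Q.card = 3 * k - b) :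
    ((Stab Q).card : ℝ) ≤ Dr m / ((2 * m).choose k : ℝ) := by
  have hc1 : 0 < (2 * m).choose k := Nat.choose_pos (by omega)
  have hc1' : (0 : ℝ) < ((2 * m).choose k : ℝ) := by exact_mod_cast hc1
  by_cases hpar : ∃ j, k = 2 * j + b
  · obtain ⟨j, hj⟩ := hpar
    rw [le_div_iff₀ hc1']
    refine le_trans ?_ (stab_bound hj hkm Q hQ)
    apply mul_le_mul_of_nonneg_left _ (Nat.cast_nonneg _)
    have hc2 : 1 ≤ m.choose j := Nat.choose_pos (by omega)
    have hc2' : (1 : ℝ) ≤ (m.choose j : ℝ) := by exact_mod_cast hc2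
    nlinarith
  · rw [stab_zero (show b ≤ k by omega) Q hQ hpar, Nat.cast_zero]
    exact div_nonneg (Dr_pos m).le hc1'.le

/-- the constants -/
noncomputable def gk (k : ℕ) : ℝ := ∑ b ∈ Finset.range 7, ((3 * k).choose b : ℝ)

lemma gk_nonneg (k : ℕ) : 0 ≤ gk k := Finset.sum_nonneg fun _ _ => Nat.cast_nonneg _

lemma BY_le {m : ℕ} (hm : 1800 ≤ m) (Y : Finset (Fin (2 * m)))
    (hY : 6 ≤ Y.card ∧ Y.card ≤ 1800) :
    ((BY Y).card : ℝ) ≤ gk Y.card * (Dr m / ((2 * m).choose Y.card : ℝ)) := by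
  have h1 := BY_card_le Y
  have h2 : ((BY Y).card : ℝ) ≤ ∑ b ∈ Finset.range 7,
      ∑ Q ∈ Finset.powersetCard (3 * Y.card - b) (Y ×ˢ (Finset.univ : Finset (Fin 3))),
        ((Stab Q).card : ℝ) := by exact_mod_cast h1
  refine h2.trans ?_
  rw [gk, Finset.sum_mul]
  apply Finset.sum_le_sum
  intro b hb
  rw [Finset.mem_range] at hb
  have h3 : ∀ Q ∈ Finset.powersetCard (3 * Y.card - b) (Y ×ˢ (Finset.univ : Finset (Fin 3))),
      ((Stab Q).card : ℝ) ≤ Dr m / ((2 * m).choose Y.card : ℝ) := by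
    intro Q hQ
    rw [Finset.mem_powersetCard] at hQ
    exact stab_le hY.1 (hY.2.trans hm) (by omega) Q hQ.2
  refine (Finset.sum_le_sum h3).trans ?_
  rw [Finset.sum_const, Finset.card_powersetCard, Finset.card_product, Finset.card_univ,
    Fintype.card_fin, nsmul_eq_mul, mul_comm Y.card 3, Nat.choose_symm (by omega)]

/-- the constant -/
noncomputable def C0 : ℝ := ∑ k ∈ Finset.range 1801, gk k

lemma sum_BY_le {m : ℕ} (hm : 1800 ≤ m) :
    ((∑ Y ∈ Finset.univ.filter (fun Y : Finset (Fin (2 * m)) => 6 ≤ Y.card ∧ Y.card ≤ 1800),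
      (BY Y).card : ℕ) : ℝ) ≤ C0 * Dr m := by
  push_cast
  have hD := Dr_pos m
  set f : ℕ → ℝ := fun k => if 6 ≤ k ∧ k ≤ 1800 then
    gk k * (Dr m / ((2 * m).choose k : ℝ)) else 0 with hf
  have h1 : ∑ Y ∈ Finset.univ.filter (fun Y : Finset (Fin (2 * m)) => 6 ≤ Y.card ∧ Y.card ≤ 1800),
      ((BY Y).card : ℝ) ≤ ∑ Y ∈ (Finset.univ : Finset (Fin (2 * m))).powerset, f Y.card := by
    rw [Finset.powerset_univ, Finset.sum_filter]
    apply Finset.sum_le_sum
    intro Y _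
    simp only [hf]
    split_ifs with h
    · exact BY_le hm Y h
    · exact le_rfl
  refine h1.trans ?_
  rw [Finset.sum_powerset_apply_card, Finset.card_univ, Fintype.card_fin]
  have h2 : ∀ k ∈ Finset.range (2 * m + 1), (2 * m).choose k • f k =
      if 6 ≤ k ∧ k ≤ 1800 then gk k * Dr m else 0 := by
    intro k hk
    rw [Finset.mem_range] at hk
    have hc1 : 0 < (2 * m).choose k := Nat.choose_pos (by omega)
    have hc1' : ((2 * m).choose k : ℝ) ≠ 0 := by exact_mod_cast hc1.ne'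
    rw [nsmul_eq_mul]
    simp only [hf]
    split_ifs with h
    · field_simp
    · rw [mul_zero]
  rw [Finset.sum_congr rfl h2, ← Finset.sum_filter, C0, Finset.sum_mul]
  apply Finset.sum_le_sum_of_subset_of_nonneg
  · intro k hk
    rw [Finset.mem_filter] at hk
    rw [Finset.mem_range]
    omega
  · intro k _ _
    exact mul_nonneg (gk_nonneg k) hD.le

lemma arith {b C D R g P τ δ c x N : ℝ} (hx : 0 < x) (hτ : 0 < τ) (hδ : 0 < δ) (hc : 0 < c)
    (hC : 0 ≤ C) (hD : 0 < D) (hR : 0 < R) (hP : 0 < P) (hb : 0 ≤ b) (h3 : g * P = R * D)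
    (h4 : c ≤ R ^ 2 * x ^ 3) (h8 : 16 * C ^ 2 ≤ c * δ ^ 2 * τ ^ 4 * x)
    (hN : (τ * x) ^ 2 / 4 ≤ N) (h5 : b * P * N ≤ C * D) : b ≤ δ * g := by
  have h5' : b * P * ((τ * x) ^ 2 / 4) ≤ C * D :=
    le_trans (mul_le_mul_of_nonneg_left hN (by positivity)) h5
  have hτm2 : (0 : ℝ) < (τ * x) ^ 2 := by positivity
  have h6 : 4 * C / (τ * x) ^ 2 ≤ δ * R := by
    have h7 : (4 * C / (τ * x) ^ 2) ^ 2 ≤ (δ * R) ^ 2 := by
      rw [div_pow, div_le_iff₀ (pow_pos hτm2 2)]
      calc (4 * C) ^ 2 = 16 * C ^ 2 := by ring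
        _ ≤ c * δ ^ 2 * τ ^ 4 * x := h8
        _ = c * (δ ^ 2 * τ ^ 4 * x) := by ring
        _ ≤ (R ^ 2 * x ^ 3) * (δ ^ 2 * τ ^ 4 * x) :=
            mul_le_mul_of_nonneg_right h4 (by positivity)
        _ = (δ * R) ^ 2 * ((τ * x) ^ 2) ^ 2 := by ring
    exact le_of_sq_le_sq h7 (by positivity)
  have h11 : b * P ≤ (δ * g) * P := by
    calc b * P = (b * P * ((τ * x) ^ 2 / 4)) * (4 / (τ * x) ^ 2) := by
          field_simp
      _ ≤ (C * D) * (4 / (τ * x) ^ 2) := mul_le_mul_of_nonneg_right h5' (by positivity)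
      _ = (4 * C / (τ * x) ^ 2) * D := by ring
      _ ≤ (δ * R) * D := mul_le_mul_of_nonneg_right h6 hD.le
      _ = δ * (g * P) := by rw [h3]; ring
      _ = _ := by ring
  exact le_of_mul_le_mul_right h11 hP

theorem t_T : S_T := by
  intro τ hτ δ hδ
  obtain ⟨c, hc, hR⟩ := R_lower
  obtain ⟨M₁, hM₁⟩ := exists_nat_gt (2 / τ)
  obtain ⟨M₂, hM₂⟩ := exists_nat_gt (16 * C0 ^ 2 / (c * δ ^ 2 * τ ^ 4))
  refine ⟨max 1800 (max M₁ M₂), ?_⟩
  intro m hm
  have hm0 : 1800 ≤ m := le_trans (le_max_left _ _) hm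
  have hm1 : M₁ ≤ m := le_trans (le_trans (le_max_left _ _) (le_max_right _ _)) hm
  have hm2 : M₂ ≤ m := le_trans (le_trans (le_max_right _ _) (le_max_right _ _)) hm
  have hm0' : (1800 : ℝ) ≤ m := by exact_mod_cast hm0
  have hm1' : 2 / τ < m := hM₁.trans_le (by exact_mod_cast hm1)
  have hm2' : 16 * C0 ^ 2 / (c * δ ^ 2 * τ ^ 4) < m := hM₂.trans_le (by exact_mod_cast hm2)
  have hτm : 2 < τ * m := by
    rw [div_lt_iff₀ hτ] at hm1'
    linarith
  have hC0 : 0 ≤ C0 := Finset.sum_nonneg fun k _ => gk_nonneg k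
  set s := (cub (Fin (2 * m))).filter (fun G => ManyBad G (τ * m)) with hs
  set n := ⌈τ * m⌉₊ with hn
  have hn1 : τ * m ≤ n := Nat.le_ceil _
  have hcount : s.card * 6 ^ Fintype.card (Fin (2 * m)) * n.choose 2 ≤
      ∑ Y ∈ Finset.univ.filter (fun Y : Finset (Fin (2 * m)) => 6 ≤ Y.card ∧ Y.card ≤ 1800),
        (BY Y).card := by
    apply count_pairs
    · intro G hG
      rw [hs, Finset.mem_filter, mem_cub] at hG
      exact hG.1
    · intro G hG
      rw [hs, Finset.mem_filter] at hG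
      obtain ⟨F, hF1, hF2, hF3⟩ := hG.2
      have h1 : n ≤ F.card := Nat.ceil_le.2 hF3
      exact (Nat.choose_le_choose 2 h1).trans (card_Ys hF1 hF2)
  have hsum := sum_BY_le hm0
  have hcount' : (s.card : ℝ) * 36 ^ m * (n.choose 2 : ℝ) ≤ C0 * Dr m := by
    refine le_trans ?_ hsum
    have h1 : (6 : ℕ) ^ Fintype.card (Fin (2 * m)) = 36 ^ m := by
      rw [Fintype.card_fin, pow_mul]
      norm_num
    rw [h1] at hcount
    exact_mod_cast hcount
  have hn2 : (τ * m) ^ 2 / 4 ≤ (n.choose 2 : ℝ) := by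
    rw [Nat.cast_choose_two]
    nlinarith
  have hD := Dr_pos m
  have hR0 := R_pos (show 2 ≤ m by omega)
  have h4 := hR m (by omega)
  have h3 : (gg m : ℝ) * 36 ^ m = R m * Dr m := by
    unfold R; field_simp
  have h8 : 16 * C0 ^ 2 ≤ c * δ ^ 2 * τ ^ 4 * m := by
    rw [div_lt_iff₀ (by positivity)] at hm2'
    linarith
  exact arith (by linarith) hτ hδ hc hC0 hD hR0 (pow_pos (by norm_num) m) (Nat.cast_nonneg _) h3 h4
    h8 hn2 hcount'

end K9h61.CL
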