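import Pool.Agent.K9h61.CL.Fin
import Pool.Agent.K9h61.CL.N
import Pool.Agent.K9h61.CL.T

open scoped Classical

namespace K9h61.CL

theorem main : ∃ ε : ℝ, 0 < ε ∧
    Filter.Tendsto (fun m : ℕ =>
      (((H994K.cub (Fin (2 * m))).filter (fun G => 1 + ε ≤ rho 2 G)).card : ℝ) /
        (H994K.gg m : ℝ))
      Filter.atTop (nhds 1) :=
  random_cubic t_T t_N

end K9h61.CL
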