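import Pool.Agent.K9h61.CL.D2

set_option linter.unusedSectionVars false
set_option linter.unusedVariables false

open scoped Classical

namespace K9h61.CL

open H994K

lemma det {V : Type*} [Fintype V] {m : ℕ} (hm : 10 ^ 7 ≤ m) (hn : Fintype.card V = 2 * m)
    {G : SimpleGraph V} (hG : Cubic G) (hE : Expander G)
    (hMB : ¬ ManyBad G (1 / 10 ^ 10 * (m : ℝ))) (hNB : ¬ NearBip G)
    {R B : SimpleGraph V} (hcov : ∀ u v, G.Adj u v → R.Adj u v ∨ B.Adj u v)
    (hR : ∀ u v, R.Adj u v → G.Adj u v) (hB : ∀ u v, B.Adj u v → G.Adj u v)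
    {a : ℕ} (ha : (2 * a : ℝ) ≤ (1 + 1 / 10 ^ 7) * m) :
    ∃ H : SimpleGraph V, (H = R ∨ H = B) ∧
      ∃ M : Finset (Sym2 V), (∀ e ∈ M, e ∈ H.edgeSet) ∧ IsMatch M ∧ M.card = a + 1 := by
  by_contra hcon
  have hnoR : ¬ ∃ M : Finset (Sym2 V), (∀ e ∈ M, e ∈ R.edgeSet) ∧ IsMatch M ∧
      M.card = a + 1 := fun h => hcon ⟨R, Or.inl rfl, h⟩
  have hnoB : ¬ ∃ M : Finset (Sym2 V), (∀ e ∈ M, e ∈ B.edgeSet) ∧ IsMatch M ∧
      M.card = a + 1 := fun h => hcon ⟨B, Or.inr rfl, h⟩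
  have hmr : (10 ^ 7 : ℝ) ≤ m := by exact_mod_cast hm
  have ha2r : (10 * (a + 1) : ℝ) ≤ 6 * m := by
    have : (5 : ℝ) * (2 * a) ≤ 5 * ((1 + 1 / 10 ^ 7) * m) := by linarith
    nlinarith
  have ha2 : 10 * (a + 1) ≤ 6 * m := by exact_mod_cast ha2r
  have ha1 : a + 1 ≤ m := by omega
  obtain ⟨A1, I1, y1, h11, h12, h13⟩ := colour hG hE hR hn ha1 ha2 _ hMB hnoR
  obtain ⟨A2, I2, y2, h21, h22, h23⟩ := colour hG hE hB hn ha1 ha2 _ hMB hnoB
  have e1 : 6 * m ≤ 6 * A1.card + I1.card + 6 * A2.card + I2.card := by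
    have h1 : (dst G (Finset.univ : Finset V)) ⊆
        (dst G A1 ∪ den G A1 ∪ I1) ∪ (dst G A2 ∪ den G A2 ∪ I2) := by
      intro p hp
      unfold dst at hp
      rw [Finset.mem_filter] at hp
      have hadj := hp.2.1
      have hk : ∀ (A : Finset V) (I : Finset (V × V)),
          (p.1 ∈ A ∨ p.2 ∈ A ∨ (p.1, p.2) ∈ I) → p ∈ dst G A ∪ den G A ∪ I := by
        intro A I h
        rw [Finset.mem_union, Finset.mem_union]
        unfold dst den
        rw [Finset.mem_filter, Finset.mem_filter]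
        rcases h with h | h | h
        · exact Or.inl (Or.inl ⟨Finset.mem_univ _, hadj, h⟩)
        · exact Or.inl (Or.inr ⟨Finset.mem_univ _, hadj, h⟩)
        · exact Or.inr h
      rw [Finset.mem_union]
      rcases hcov _ _ hadj with h | h
      · exact Or.inl (hk A1 I1 (h12 _ _ h))
      · exact Or.inr (hk A2 I2 (h22 _ _ h))
    have h2 := Finset.card_le_card h1
    rw [card_dst hG, Finset.card_univ, hn] at h2
    have h3 := Finset.card_union_le (dst G A1 ∪ den G A1 ∪ I1) (dst G A2 ∪ den G A2 ∪ I2)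
    have h4 := Finset.card_union_le (dst G A1 ∪ den G A1) I1
    have h5 := Finset.card_union_le (dst G A2 ∪ den G A2) I2
    have h6 := Finset.card_union_le (dst G A1) (den G A1)
    have h7 := Finset.card_union_le (dst G A2) (den G A2)
    rw [card_dst hG, card_den hG] at h6 h7
    omega
  set S := A1 ∪ A2 with hS
  have e2 : S.card ≤ A1.card + A2.card := Finset.card_union_le _ _
  have e3 : ins G Sᶜ ≤ I1.card + I2.card := by
    rw [← card_din]
    refine (Finset.card_le_card (t := I1 ∪ I2) ?_).trans (Finset.card_union_le _ _)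
    intro p hp
    rw [mem_din, Finset.mem_compl, Finset.mem_compl, hS, Finset.mem_union, Finset.mem_union] at hp
    obtain ⟨hadj, h1, h2⟩ := hp
    push Not at h1 h2
    rw [Finset.mem_union]
    rcases hcov _ _ hadj with h | h
    · rcases h12 _ _ h with h3 | h3 | h3
      · exact absurd h3 h1.1
      · exact absurd h3 h2.1
      · exact Or.inl h3
    · rcases h22 _ _ h with h3 | h3 | h3
      · exact absurd h3 h1.2
      · exact absurd h3 h2.2
      · exact Or.inr h3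
  have e4 := ins_add_bd hG S
  have e5 := ins_add_bd hG Sᶜ
  rw [bd_compl] at e5
  have e6 := Finset.card_add_card_compl S
  rw [hn] at e6
  have e7 : ins G S + 6 * m = 6 * S.card + ins G Sᶜ := by omega
  apply hNB
  refine ⟨S, ?_⟩
  rw [hn]
  have f1 : (6 * m : ℝ) ≤ 6 * A1.card + I1.card + 6 * A2.card + I2.card := by exact_mod_cast e1
  have f2 : (S.card : ℝ) ≤ A1.card + A2.card := by exact_mod_cast e2
  have f3 : (ins G Sᶜ : ℝ) ≤ I1.card + I2.card := by exact_mod_cast e3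
  have f7 : (ins G S : ℝ) + 6 * m = 6 * S.card + ins G Sᶜ := by exact_mod_cast e7
  have g1 : (2 * A1.card + y1 : ℝ) ≤ 2 * a + 1 := by exact_mod_cast h11
  have g2 : (2 * A2.card + y2 : ℝ) ≤ 2 * a + 1 := by exact_mod_cast h21
  have hfin : (50 * (ins G S + ins G Sᶜ) : ℝ) ≤ 2 * m := by
    have t1 : (y1 + y2 : ℝ) ≤ 5400 * (2 * a + 1) - 5400 * m + 4860000 * (1 / 10 ^ 10 * m) := by
      linarith
    have t2 : (ins G S + ins G Sᶜ : ℝ) ≤ 6 * (2 * a + 1) - 6 * m + 2 * (I1.card + I2.card) := by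
      have y1n : (0 : ℝ) ≤ y1 := Nat.cast_nonneg _
      have y2n : (0 : ℝ) ≤ y2 := Nat.cast_nonneg _
      linarith
    have t3 : (900 * (I1.card + I2.card) : ℝ) ≤ 2699 * (y1 + y2) + 4860000 * (1 / 10 ^ 10 * m) := by
      linarith
    have t4 : (2 * a : ℝ) - m ≤ m / 10 ^ 7 := by linarith
    linarith
  exact_mod_cast hfin

theorem t_D : S_D := by
  refine ⟨1 / 10 ^ 7, by positivity, 1 / 10 ^ 10, by positivity, 10 ^ 7, ?_⟩
  intro m hm G hG hE hMB hNB R B hcov hR hB a ha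
  exact det hm (Fintype.card_fin _) hG hE hMB hNB hcov hR hB ha

end K9h61.CL
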