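import Pool.Agent.K9h61.CL.Stm

set_option linter.unusedSectionVars false
set_option linter.unusedVariables false

open scoped Classical

namespace K9h61.CL

open H994K

section
variable {V : Type*} [Fintype V]

lemma ins_add_bd {G : SimpleGraph V} (hG : Cubic G) (S : Finset V) :
    ins G S + bd G S = 3 * S.card := by
  unfold ins bd
  rw [← Finset.sum_add_distrib, Finset.card_eq_sum_ones, Finset.mul_sum]
  apply Finset.sum_congr rfl
  intro v _
  rw [mul_one, ← hG v, ← Finset.card_filter_add_card_filter_not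
    (s := Finset.univ.filter (fun w => G.Adj v w)) (fun w => w ∈ S)]
  rw [Finset.filter_filter, Finset.filter_filter]

lemma bd_eq (G : SimpleGraph V) (S : Finset V) :
    bd G S = ∑ v ∈ S, ∑ w ∈ Sᶜ, (if G.Adj v w then 1 else 0) := by
  unfold bd
  apply Finset.sum_congr rfl
  intro v _
  rw [Finset.sum_boole, Nat.cast_id]
  congr 1
  ext w
  simp [and_comm]

lemma bd_compl (G : SimpleGraph V) (S : Finset V) : bd G Sᶜ = bd G S := by
  rw [bd_eq, bd_eq, compl_compl, Finset.sum_comm]
  apply Finset.sum_congr rfl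
  intro v _
  apply Finset.sum_congr rfl
  intro w _
  simp [G.adj_comm]

/-- ordered adjacent pairs -/
noncomputable def dart (G : SimpleGraph V) : Finset (V × V) :=
  Finset.univ.filter (fun p => G.Adj p.1 p.2)

/-- ordered adjacent pairs inside a set -/
noncomputable def din (G : SimpleGraph V) (S : Finset V) : Finset (V × V) :=
  Finset.univ.filter (fun p => G.Adj p.1 p.2 ∧ p.1 ∈ S ∧ p.2 ∈ S)

lemma mem_din {G : SimpleGraph V} {S : Finset V} {p : V × V} :
    p ∈ din G S ↔ G.Adj p.1 p.2 ∧ p.1 ∈ S ∧ p.2 ∈ S := by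
  unfold din; simp

lemma card_din (G : SimpleGraph V) (S : Finset V) : (din G S).card = ins G S := by
  have h : (S.sigma (fun v => Finset.univ.filter (fun w => G.Adj v w ∧ w ∈ S))).card
      = ins G S := by
    rw [Finset.card_sigma]
    rfl
  rw [← h]
  apply Finset.card_bij (fun p _ => (⟨p.1, p.2⟩ : (_ : V) × V))
  · intro p hp
    rw [mem_din] at hp
    simp only [Finset.mem_sigma, Finset.mem_filter, Finset.mem_univ, true_and]
    exact ⟨hp.2.1, hp.1, hp.2.2⟩
  · intro p _ q _ h
    simp only [Sigma.mk.injEq, heq_eq_eq] at h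
    exact Prod.ext h.1 h.2
  · rintro ⟨v, w⟩ hp
    simp only [Finset.mem_sigma, Finset.mem_filter, Finset.mem_univ, true_and] at hp
    exact ⟨(v, w), by rw [mem_din]; exact ⟨hp.2.1, hp.1, hp.2.2⟩, rfl⟩

/-- ordered adjacent pairs starting in a set -/
noncomputable def dst (G : SimpleGraph V) (S : Finset V) : Finset (V × V) :=
  Finset.univ.filter (fun p => G.Adj p.1 p.2 ∧ p.1 ∈ S)

noncomputable def den (G : SimpleGraph V) (S : Finset V) : Finset (V × V) :=
  Finset.univ.filter (fun p => G.Adj p.1 p.2 ∧ p.2 ∈ S)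

lemma card_dst {G : SimpleGraph V} (hG : Cubic G) (S : Finset V) :
    (dst G S).card = 3 * S.card := by
  have h : (S.sigma (fun v => Finset.univ.filter (fun w => G.Adj v w))).card
      = 3 * S.card := by
    rw [Finset.card_sigma, Finset.sum_congr rfl (fun v _ => hG v), Finset.sum_const, smul_eq_mul,
      mul_comm]
  rw [← h]
  apply Finset.card_bij (fun p _ => (⟨p.1, p.2⟩ : (_ : V) × V))
  · intro p hp
    unfold dst at hp
    rw [Finset.mem_filter] at hp
    simp only [Finset.mem_sigma, Finset.mem_filter, Finset.mem_univ, true_and]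
    exact ⟨hp.2.2, hp.2.1⟩
  · intro p _ q _ h
    simp only [Sigma.mk.injEq, heq_eq_eq] at h
    exact Prod.ext h.1 h.2
  · rintro ⟨v, w⟩ hp
    simp only [Finset.mem_sigma, Finset.mem_filter, Finset.mem_univ, true_and] at hp
    refine ⟨(v, w), ?_, rfl⟩
    unfold dst
    rw [Finset.mem_filter]
    exact ⟨Finset.mem_univ _, hp.2, hp.1⟩

lemma card_den {G : SimpleGraph V} (hG : Cubic G) (S : Finset V) :
    (den G S).card = 3 * S.card := by
  rw [← card_dst hG S]
  apply Finset.card_bij (fun p _ => p.swap)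
  · intro p hp
    unfold den at hp
    unfold dst
    rw [Finset.mem_filter] at hp ⊢
    exact ⟨Finset.mem_univ _, hp.2.1.symm, hp.2.2⟩
  · intro p _ q _ h
    exact Prod.swap_injective h
  · intro p hp
    refine ⟨p.swap, ?_, Prod.swap_swap p⟩
    unfold dst at hp
    unfold den
    rw [Finset.mem_filter] at hp ⊢
    exact ⟨Finset.mem_univ _, hp.2.1.symm, hp.2.2⟩

/-- expansion of sets with at most 60 percent of the vertices -/
lemma expand60 {G : SimpleGraph V} (hE : Expander G) {S : Finset V}
    (h : 5 * S.card ≤ 3 * Fintype.card V) : S.card ≤ 150 * bd G S := by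
  by_cases h2 : 2 * S.card ≤ Fintype.card V
  · have := hE S h2
    omega
  · have h3 := Finset.card_add_card_compl S
    have h4 := hE Sᶜ (by omega)
    rw [bd_compl] at h4
    omega

lemma ins_single {G : SimpleGraph V} {S : Finset V} (h : S.card = 1) : ins G S = 0 := by
  obtain ⟨v, rfl⟩ := Finset.card_eq_one.mp h
  unfold ins
  rw [Finset.sum_singleton, Finset.card_eq_zero, Finset.filter_eq_empty_iff]
  rintro w _ ⟨h1, h2⟩
  rw [Finset.mem_singleton] at h2
  subst h2
  exact G.irrefl h1

lemma ins_odd {G : SimpleGraph V} (hG : Cubic G) (hE : Expander G) {O : Finset V} {u : ℕ}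
    (hO : O.card = 2 * u + 1) (h : 5 * O.card ≤ 3 * Fintype.card V) (hb : ¬ Bad G O) :
    900 * ins G O ≤ 5398 * u := by
  rcases Nat.eq_zero_or_pos u with h0 | h0
  · subst h0
    rw [ins_single (by omega)]
  · have h1 := ins_add_bd hG O
    have h2 := expand60 hE h
    by_cases h3 : O.card ≤ 900
    · have h4 : ¬ bd G O ≤ 3 := by
        intro h5
        exact hb ⟨⟨u, hO⟩, by omega, h3, h5⟩
      omega
    · omega

lemma ins_rest {G : SimpleGraph V} (hG : Cubic G) (hE : Expander G) {W : Finset V}
    (h : 5 * W.card ≤ 3 * Fintype.card V) : 900 * ins G W ≤ 2699 * W.card := by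
  have h1 := ins_add_bd hG W
  have h2 := expand60 hE h
  omega

lemma ins_le {G : SimpleGraph V} (hG : Cubic G) (S : Finset V) : ins G S ≤ 3 * S.card := by
  have h1 := ins_add_bd hG S
  omega

end

end K9h61.CL
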