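import Pool.Agent.K9h61.CL.D1

set_option linter.unusedSectionVars false
set_option linter.unusedVariables false

open scoped Classical

namespace K9h61.CL

open H994K

section
variable {V : Type*} [Fintype V]

/-- Tutte-Berge: no matching with `a + 1` edges gives a barrier -/
lemma barrier (R : SimpleGraph V) {n a : ℕ} (hn : Fintype.card V = 2 * n) (ha : a + 1 ≤ n)
    (hno : ¬ ∃ M : Finset (Sym2 V), (∀ e ∈ M, e ∈ R.edgeSet) ∧ IsMatch M ∧ M.card = a + 1) :
    ∃ (A : Finset V) (F : Finset (Finset V)), (∀ O ∈ F, Odd O.card) ∧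
      (∀ O ∈ F, ∀ O' ∈ F, O ≠ O' → Disjoint O O') ∧ (∀ O ∈ F, Disjoint O A) ∧
      (∀ O ∈ F, ∀ x ∈ O, ∀ y, R.Adj x y → y ∈ O ∨ y ∈ A) ∧
      A.card + 2 * n ≤ F.card + 2 * a + 1 := by
  by_contra hcon
  apply hno
  obtain ⟨U, mm, _, hUc, hU⟩ := H168DD.tutte_berge R (Finset.univ : Finset V) (2 * n - 2 * a - 2)
    (by
      rw [Finset.card_univ, hn]
      exact ⟨n + n - a - 1, by omega⟩)
    (by
      intro A F _ hodd hdisj hsub hclos
      by_contra hlt
      apply hcon
      refine ⟨A, F, hodd, hdisj, ?_, ?_, by omega⟩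
      · intro O hO
        rw [Finset.disjoint_left]
        intro x hx hxA
        exact (Finset.mem_sdiff.mp (hsub O hO hx)).2 hxA
      · intro O hO x hx y hxy
        exact hclos O hO x hx y (Finset.mem_univ _) hxy)
  set T := (Finset.univ : Finset V) \ U with hT
  have hTc : T.card + U.card = 2 * n := by
    rw [hT, Finset.card_sdiff_add_card_eq_card (Finset.subset_univ _), Finset.card_univ, hn]
  set I : Finset (Sym2 V) := T.image (fun x => s(x, mm x)) with hI
  have hIc : T.card ≤ 2 * I.card := by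
    apply Finset.card_le_mul_card_image
    intro e he
    rw [Finset.mem_image] at he
    obtain ⟨x, hx, rfl⟩ := he
    refine (Finset.card_le_card (t := {x, mm x}) ?_).trans Finset.card_le_two
    intro y hy
    rw [Finset.mem_filter] at hy
    have h2 := hy.2
    rw [Sym2.eq_iff] at h2
    rw [Finset.mem_insert, Finset.mem_singleton]
    rcases h2 with h2 | h2
    · exact Or.inl h2.1
    · exact Or.inr h2.1
  have hle : a + 1 ≤ I.card := by omega
  obtain ⟨M, hMI, hMc⟩ := Finset.exists_subset_card_eq hle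
  refine ⟨M, ?_, ?_, hMc⟩
  · intro e he
    have := hMI he
    rw [hI, Finset.mem_image] at this
    obtain ⟨x, hx, rfl⟩ := this
    rw [SimpleGraph.mem_edgeSet]
    exact (hU x hx).2.2
  · intro e he f hf hef v hv
    apply hef
    have h1 := hMI he
    have h2 := hMI hf
    rw [hI, Finset.mem_image] at h1 h2
    obtain ⟨x, hx, rfl⟩ := h1
    obtain ⟨y, hy, rfl⟩ := h2
    have key : ∀ z ∈ T, v ∈ s(z, mm z) → s(z, mm z) = s(v, mm v) := by
      intro z hz hvz
      rw [Sym2.mem_iff] at hvz
      rcases hvz with rfl | rfl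
      · rfl
      · rw [(hU z hz).2.1, Sym2.eq_swap]
    rw [key x hx hv.1, key y hy hv.2]

/-- one colour class -/
lemma colour {G R : SimpleGraph V} (hG : Cubic G) (hE : Expander G) (hRG : ∀ u v, R.Adj u v → G.Adj u v)
    {n a : ℕ} (hn : Fintype.card V = 2 * n) (ha : a + 1 ≤ n) (ha2 : 10 * (a + 1) ≤ 6 * n)
    (N : ℝ) (hN : ¬ ManyBad G N)
    (hno : ¬ ∃ M : Finset (Sym2 V), (∀ e ∈ M, e ∈ R.edgeSet) ∧ IsMatch M ∧ M.card = a + 1) :
    ∃ (A : Finset V) (I : Finset (V × V)) (y : ℕ), 2 * A.card + y ≤ 2 * a + 1 ∧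
      (∀ u v, R.Adj u v → u ∈ A ∨ v ∈ A ∨ (u, v) ∈ I) ∧
      (900 * I.card : ℝ) ≤ 2699 * y + 2430000 * N := by
  obtain ⟨A, F, hodd, hdisj, hdA, hclos, hcard⟩ := barrier R hn ha hno
  set W : Finset V := (A ∪ F.biUnion id)ᶜ with hW
  have hsumF : (F.biUnion id).card = ∑ O ∈ F, O.card := by
    rw [Finset.card_biUnion]
    · rfl
    · intro O hO O' hO' hne
      exact hdisj O hO O' hO' hne
  have hAF : Disjoint A (F.biUnion id) := by
    rw [Finset.disjoint_biUnion_right]
    intro O hO
    exact (hdA O hO).symm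
  have htot : A.card + ∑ O ∈ F, O.card + W.card = 2 * n := by
    have h1 := Finset.card_add_card_compl (A ∪ F.biUnion id)
    rw [Finset.card_union_of_disjoint hAF, hsumF, hn] at h1
    exact h1
  -- half sizes
  have hu : ∀ O ∈ F, O.card = 2 * (O.card / 2) + 1 := by
    intro O hO
    obtain ⟨k, hk⟩ := hodd O hO
    omega
  set U : ℕ := ∑ O ∈ F, O.card / 2 with hU
  have hsum2 : ∑ O ∈ F, O.card = 2 * U + F.card := by
    rw [hU, Finset.mul_sum, Finset.card_eq_sum_ones, ← Finset.sum_add_distrib]
    exact Finset.sum_congr rfl hu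
  have hmain : 2 * A.card + (2 * U + W.card) ≤ 2 * a + 1 := by omega
  have hOu : ∀ O ∈ F, O.card / 2 ≤ U := by
    intro O hO
    exact Finset.single_le_sum (f := fun O : Finset V => O.card / 2) (fun _ _ => Nat.zero_le _) hO
  set I : Finset (V × V) := F.biUnion (fun O => din G O) ∪ din G W with hI
  refine ⟨A, I, 2 * U + W.card, hmain, ?_, ?_⟩
  · intro u v huv
    by_contra hcon
    push Not at hcon
    obtain ⟨h1, h2, h3⟩ := hcon
    apply h3
    rw [hI, Finset.mem_union, Finset.mem_biUnion]
    by_cases h4 : ∃ O ∈ F, u ∈ O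
    · obtain ⟨O, hO, hu'⟩ := h4
      left
      refine ⟨O, hO, ?_⟩
      rw [mem_din]
      refine ⟨hRG _ _ huv, hu', ?_⟩
      exact (hclos O hO u hu' v huv).resolve_right h2
    · by_cases h5 : ∃ O ∈ F, v ∈ O
      · obtain ⟨O, hO, hv'⟩ := h5
        exact absurd ⟨O, hO, (hclos O hO v hv' u huv.symm).resolve_right h1⟩ h4
      · right
        rw [mem_din, hW]
        refine ⟨hRG _ _ huv, ?_, ?_⟩
        · simp only [Finset.mem_compl, Finset.mem_union, Finset.mem_biUnion, id]
          rintro (h6 | h6)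
          · exact h1 h6
          · exact h4 h6
        · simp only [Finset.mem_compl, Finset.mem_union, Finset.mem_biUnion, id]
          rintro (h6 | h6)
          · exact h2 h6
          · exact h5 h6
  · set Fb := F.filter (fun O => Bad G O) with hFb
    have hbad : (Fb.card : ℝ) ≤ N := by
      by_contra hlt
      push Not at hlt
      apply hN
      refine ⟨Fb, ?_, ?_, hlt.le⟩
      · intro X hX
        exact (Finset.mem_filter.mp hX).2
      · intro X hX Y hY hne
        exact hdisj X (Finset.mem_filter.mp hX).1 Y (Finset.mem_filter.mp hY).1 hne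
    have h1 : I.card ≤ ∑ O ∈ F, ins G O + ins G W := by
      rw [hI]
      refine (Finset.card_union_le _ _).trans ?_
      rw [card_din]
      apply Nat.add_le_add_right
      refine Finset.card_biUnion_le.trans ?_
      apply Finset.sum_le_sum
      intro O _
      rw [card_din]
    have h2 : 900 * ∑ O ∈ F, ins G O ≤ 5398 * U + 2430000 * Fb.card := by
      rw [Finset.mul_sum, hU, Finset.mul_sum, hFb, Finset.card_filter, Finset.mul_sum,
        ← Finset.sum_add_distrib]
      apply Finset.sum_le_sum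
      intro O hO
      by_cases hb : Bad G O
      · rw [if_pos hb]
        have h3 := ins_le hG O
        have h4 := hb.2.2.1
        omega
      · rw [if_neg hb]
        have h3 := hOu O hO
        have h4 := hu O hO
        have := ins_odd hG hE h4 (by omega) hb
        omega
    have h3 : 900 * ins G W ≤ 2699 * W.card := by
      apply ins_rest hG hE
      omega
    have h4 : 900 * I.card ≤ 2699 * (2 * U + W.card) + 2430000 * Fb.card := by
      have : 900 * I.card ≤ 900 * (∑ O ∈ F, ins G O + ins G W) := Nat.mul_le_mul_left _ h1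
      rw [mul_add] at this
      omega
    have h5 : (900 * I.card : ℝ) ≤ 2699 * ((2 * U + W.card : ℕ) : ℝ) + 2430000 * Fb.card := by
      exact_mod_cast h4
    linarith

end

end K9h61.CL
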