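import Pool.Agent.K9h61.CL.D

set_option linter.unusedSectionVars false
set_option linter.unusedVariables false

open scoped Classical

namespace K9h61.CL

open H994K

section
variable {V : Type*} [Fintype V]

lemma match_card {G : SimpleGraph V} {M : Finset (Sym2 V)} (hM : ∀ e ∈ M, e ∈ G.edgeSet)
    (hd : IsMatch M) : 2 * M.card ≤ Fintype.card V := by
  have h1 : (M.biUnion (fun e => e.toFinset)).card = ∑ e ∈ M, e.toFinset.card := by
    apply Finset.card_biUnion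
    intro e he f hf hef
    rw [Function.onFun, Finset.disjoint_left]
    intro v hv hv'
    rw [Sym2.mem_toFinset] at hv hv'
    exact hd e he f hf hef v ⟨hv, hv'⟩
  have h2 : ∑ e ∈ M, e.toFinset.card = 2 * M.card := by
    rw [Finset.sum_congr rfl (fun e he => Sym2.card_toFinset_of_not_isDiag e
      (G.not_isDiag_of_mem_edgeSet (hM e he))), Finset.sum_const, smul_eq_mul, mul_comm]
  rw [← h2, ← h1]
  exact Finset.card_le_univ _

lemma nu_bdd (G : SimpleGraph V) : BddAbove {k : ℕ | ∃ M : Finset (Sym2 V),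
    (∀ e ∈ M, e ∈ G.edgeSet) ∧ IsMatch M ∧ M.card = k} := by
  refine ⟨Fintype.card V, ?_⟩
  rintro k ⟨M, h1, h2, rfl⟩
  have := match_card h1 h2
  omega

lemma nu_le (G : SimpleGraph V) : 2 * nu G ≤ Fintype.card V := by
  have h : nu G ∈ {k : ℕ | ∃ M : Finset (Sym2 V),
      (∀ e ∈ M, e ∈ G.edgeSet) ∧ IsMatch M ∧ M.card = k} := by
    unfold nu
    apply Nat.sSup_mem
    · exact ⟨0, ∅, by simp, by intro e he; simp at he, rfl⟩
    · exact nu_bdd G
  obtain ⟨M, h1, h2, h3⟩ := h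
  rw [← h3]
  exact match_card h1 h2

lemma le_nu {G : SimpleGraph V} {M : Finset (Sym2 V)} (hM : ∀ e ∈ M, e ∈ G.edgeSet)
    (hd : IsMatch M) : M.card ≤ nu G :=
  le_csSup (nu_bdd G) ⟨M, hM, hd, rfl⟩

lemma nu_pos {G : SimpleGraph V} {u v : V} (h : G.Adj u v) : 0 < nu G := by
  have := le_nu (G := G) (M := {s(u, v)}) (by
    intro e he
    rw [Finset.mem_singleton] at he
    rw [he]
    exact h) (by
    intro e he f hf hef
    rw [Finset.mem_singleton] at he hf
    exact absurd (he.trans hf.symm) hef)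
  rw [Finset.card_singleton] at this
  exact this

lemma arrow_le {G : SimpleGraph V} {q : ℕ} {t : Fin q → ℕ} (ht : ∀ i, 1 ≤ t i)
    (h : Arrow G t) (i : Fin q) : t i ≤ nu G := by
  obtain ⟨j, M, h1, h2, h3⟩ := h (fun _ => i)
  have hne : M.Nonempty := by
    rw [← Finset.card_pos, h3]
    exact ht j
  obtain ⟨e, he⟩ := hne
  obtain ⟨_, h4⟩ := h1 e he
  subst h4
  rw [← h3]
  exact le_nu (fun e he => (h1 e he).1) h2

lemma rho_bdd (G : SimpleGraph V) (q : ℕ) : BddAbove {x : ℝ | ∃ t : Fin q → ℕ,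
    (∀ i, 1 ≤ t i) ∧ Arrow G t ∧ x = (∑ i, ((t i : ℝ) - 1)) + 1} := by
  refine ⟨(∑ _i : Fin q, (nu G : ℝ)) + 1, ?_⟩
  rintro x ⟨t, h1, h2, rfl⟩
  have : ∑ i, ((t i : ℝ) - 1) ≤ ∑ _i : Fin q, (nu G : ℝ) := by
    apply Finset.sum_le_sum
    intro i _
    have : (t i : ℝ) ≤ nu G := by exact_mod_cast arrow_le h1 h2 i
    linarith
  linarith

lemma rho_lower {G : SimpleGraph V} {m a : ℕ} (hn : Fintype.card V = 2 * m) {u v : V}
    (huv : G.Adj u v) (h : Arrow G (fun _ : Fin 2 => a + 1)) {r : ℝ}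
    (hr : 0 ≤ r) (hr2 : r * m ≤ 2 * a + 1) : r ≤ rho 2 G := by
  have hnu : (0 : ℝ) < nu G := by exact_mod_cast nu_pos huv
  have hnu2 : (nu G : ℝ) ≤ m := by
    have := nu_le G
    rw [hn] at this
    have h2 : nu G ≤ m := by omega
    exact_mod_cast h2
  unfold rho
  rw [le_div_iff₀ hnu]
  refine (mul_le_mul_of_nonneg_left hnu2 hr).trans (hr2.trans ?_)
  apply le_csSup (rho_bdd G 2)
  refine ⟨fun _ => a + 1, fun _ => Nat.le_add_left 1 a, h, ?_⟩
  rw [Fin.sum_univ_two]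
  push_cast
  ring

/-- graphs with the property of the deterministic part -/
lemma good_arrow {m : ℕ} (hm : 10 ^ 7 ≤ m) (hn : Fintype.card V = 2 * m)
    {G : SimpleGraph V} (hG : Cubic G) (hE : Expander G)
    (hMB : ¬ ManyBad G (1 / 10 ^ 10 * (m : ℝ))) (hNB : ¬ NearBip G)
    {a : ℕ} (ha : (2 * a : ℝ) ≤ (1 + 1 / 10 ^ 7) * m) : Arrow G (fun _ : Fin 2 => a + 1) := by
  intro c
  set H : Fin 2 → SimpleGraph V := fun j =>
    SimpleGraph.fromEdgeSet {e | ∃ h : e ∈ G.edgeSet, c ⟨e, h⟩ = j} with hH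
  have hHG : ∀ j u v, (H j).Adj u v → G.Adj u v := by
    intro j u v h
    rw [hH, SimpleGraph.fromEdgeSet_adj] at h
    exact h.1.1
  obtain ⟨K, hK, M, h1, h2, h3⟩ := det hm hn hG hE hMB hNB (R := H 0) (B := H 1) (by
    intro u v h
    have hc : c ⟨s(u, v), h⟩ = 0 ∨ c ⟨s(u, v), h⟩ = 1 := by
      generalize c ⟨s(u, v), h⟩ = x
      fin_cases x
      · exact Or.inl rfl
      · exact Or.inr rfl
    rcases hc with hc | hc
    · left
      rw [hH, SimpleGraph.fromEdgeSet_adj]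
      exact ⟨⟨h, hc⟩, h.ne⟩
    · right
      rw [hH, SimpleGraph.fromEdgeSet_adj]
      exact ⟨⟨h, hc⟩, h.ne⟩) (hHG 0) (hHG 1) ha
  have key : ∀ j, K = H j → ∀ e ∈ M, ∃ h : e ∈ G.edgeSet, c ⟨e, h⟩ = j := by
    rintro j rfl e he
    have := h1 e he
    rw [hH, SimpleGraph.edgeSet_fromEdgeSet] at this
    exact this.1
  rcases hK with hK | hK
  · exact ⟨0, M, key 0 hK, h2, h3⟩
  · exact ⟨1, M, key 1 hK, h2, h3⟩

lemma good_rho {m : ℕ} (hm : 10 ^ 8 ≤ m) (hn : Fintype.card V = 2 * m)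
    {G : SimpleGraph V} (hG : Cubic G) (hE : Expander G)
    (hMB : ¬ ManyBad G (1 / 10 ^ 10 * (m : ℝ))) (hNB : ¬ NearBip G) :
    1 + 1 / 10 ^ 8 ≤ rho 2 G := by
  have hmr : (10 ^ 8 : ℝ) ≤ m := by exact_mod_cast hm
  obtain ⟨a, ha⟩ : ∃ a : ℕ, a = ⌊((1 + 1 / 10 ^ 7) * m / 2 : ℝ)⌋₊ := ⟨_, rfl⟩
  have h1 : (a : ℝ) ≤ (1 + 1 / 10 ^ 7) * m / 2 := by
    rw [ha]
    exact Nat.floor_le (by positivity)
  have h2 : (1 + 1 / 10 ^ 7) * m / 2 < (a : ℝ) + 1 := by
    rw [ha]
    exact Nat.lt_floor_add_one _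
  have hv : Nonempty V := by
    rw [← Fintype.card_pos_iff, hn]
    have : 0 < m := lt_of_lt_of_le (by norm_num) hm
    exact Nat.mul_pos (by norm_num) this
  obtain ⟨v⟩ := hv
  have h3 : (Finset.univ.filter (fun w => G.Adj v w)).Nonempty := by
    rw [← Finset.card_pos, hG v]
    norm_num
  obtain ⟨w, hw⟩ := h3
  rw [Finset.mem_filter] at hw
  refine rho_lower (a := a) hn hw.2 (good_arrow (le_trans (by norm_num) hm) hn hG hE hMB hNB ?_) (by positivity) ?_
  · linarith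
  · linarith

end

/-- random cubic graphs on `2 m` labelled vertices: the fraction with `ρ_2 ≥ 1 + ε` tends to one -/
theorem random_cubic (hT : S_T) (hN : S_N) : ∃ ε : ℝ, 0 < ε ∧
    Filter.Tendsto (fun m : ℕ =>
      (((cub (Fin (2 * m))).filter (fun G => 1 + ε ≤ rho 2 G)).card : ℝ) / (gg m : ℝ))
      Filter.atTop (nhds 1) := by
  refine ⟨1 / 10 ^ 8, by positivity, ?_⟩
  rw [Metric.tendsto_atTop]
  intro δ hδ
  obtain ⟨M1, h1⟩ := hT (1 / 10 ^ 10) (by positivity) (δ / 4) (by positivity)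
  obtain ⟨M2, h2⟩ := hN (δ / 4) (by positivity)
  obtain ⟨M3, h3⟩ := most_expanders (δ / 4) (by positivity)
  refine ⟨M1 + M2 + M3 + 10 ^ 8, ?_⟩
  intro m hm
  have hm8 : 10 ^ 8 ≤ m := by
    have : 10 ^ 8 ≤ M1 + M2 + M3 + 10 ^ 8 := Nat.le_add_left _ _
    exact this.trans hm
  have hg : (0 : ℝ) < gg m := by exact_mod_cast gg_pos (le_trans (by norm_num) hm8 : 2 ≤ m)
  have a1 := h1 m (by omega)
  have a2 := h2 m (by omega)
  have a3 := h3 m (by omega)
  set C := cub (Fin (2 * m)) with hC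
  set X := C.filter (fun G => 1 + 1 / 10 ^ 8 ≤ rho 2 G) with hX
  set B1 := C.filter (fun G => ManyBad G (1 / 10 ^ 10 * (m : ℝ))) with hB1
  set B2 := C.filter (fun G => NearBip G) with hB2
  set B3 := C.filter (fun G => ¬ Expander G) with hB3
  have hCc : C.card = gg m := rfl
  have hsub : C ⊆ X ∪ (B1 ∪ (B2 ∪ B3)) := by
    intro G hG
    by_cases c1 : ManyBad G (1 / 10 ^ 10 * (m : ℝ))
    · exact Finset.mem_union_right _ (Finset.mem_union_left _ (Finset.mem_filter.mpr ⟨hG, c1⟩))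
    · by_cases c2 : NearBip G
      · exact Finset.mem_union_right _ (Finset.mem_union_right _ (Finset.mem_union_left _
          (Finset.mem_filter.mpr ⟨hG, c2⟩)))
      · by_cases c3 : Expander G
        · exact Finset.mem_union_left _ (Finset.mem_filter.mpr ⟨hG,
            good_rho hm8 (Fintype.card_fin _) (mem_cub.mp hG) c3 c1 c2⟩)
        · exact Finset.mem_union_right _ (Finset.mem_union_right _ (Finset.mem_union_right _
            (Finset.mem_filter.mpr ⟨hG, c3⟩)))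
  have hcard : (gg m : ℝ) ≤ X.card + (B1.card + (B2.card + B3.card)) := by
    rw [← hCc]
    have := (Finset.card_le_card hsub).trans (Finset.card_union_le _ _)
    have h4 := Finset.card_union_le B1 (B2 ∪ B3)
    have h5 := Finset.card_union_le B2 B3
    exact_mod_cast (by omega : C.card ≤ X.card + (B1.card + (B2.card + B3.card)))
  have hX1 : (X.card : ℝ) ≤ gg m := by
    rw [← hCc]
    exact_mod_cast Finset.card_le_card (Finset.filter_subset _ _)
  rw [Real.dist_eq, abs_sub_comm, abs_of_nonneg]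
  · rw [sub_lt_iff_lt_add, ← sub_lt_iff_lt_add', lt_div_iff₀ hg]
    nlinarith
  · rw [sub_nonneg, div_le_one hg]
    exact hX1

end K9h61.CL
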