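import Pool.Agent.H994R2.K.Expand2
import Pool.Agent.H168DD.TB

/-!
# Weak Cockayne-Lorimer property of random cubic graphs (MP_76d27f_co): definitions and interfaces
-/

open scoped Classical

namespace K9h61.CL

open H994K

/-- pairwise disjoint edges -/
def IsMatch {V : Type*} (M : Finset (Sym2 V)) : Prop :=
  ∀ e ∈ M, ∀ f ∈ M, e ≠ f → ∀ v : V, ¬ (v ∈ e ∧ v ∈ f)

/-- matching number -/
noncomputable def nu {V : Type*} (G : SimpleGraph V) : ℕ :=
  sSup {k : ℕ | ∃ M : Finset (Sym2 V), (∀ e ∈ M, e ∈ G.edgeSet) ∧ IsMatch M ∧ M.card = k}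

/-- `G → t K₂`: in every colouring of the edges there is a colour `j` with a matching of `t j`
edges all of colour `j` -/
def Arrow {V : Type*} {q : ℕ} (G : SimpleGraph V) (t : Fin q → ℕ) : Prop :=
  ∀ c : G.edgeSet → Fin q, ∃ j : Fin q, ∃ M : Finset (Sym2 V),
    (∀ e ∈ M, ∃ h : e ∈ G.edgeSet, c ⟨e, h⟩ = j) ∧ IsMatch M ∧ M.card = t j

/-- `ρ_q(G)` -/
noncomputable def rho {V : Type*} (q : ℕ) (G : SimpleGraph V) : ℝ :=
  sSup {x : ℝ | ∃ t : Fin q → ℕ, (∀ i, 1 ≤ t i) ∧ Arrow G t ∧ x = (∑ i, ((t i : ℝ) - 1)) + 1}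
    / (nu G : ℝ)

/-! ### interfaces -/

/-- twice the number of edges inside `S` -/
noncomputable def ins {V : Type*} [Fintype V] (G : SimpleGraph V) (S : Finset V) : ℕ :=
  ∑ v ∈ S, (Finset.univ.filter (fun w => G.Adj v w ∧ w ∈ S)).card

/-- a small odd set with at most three edges leaving it -/
def Bad {V : Type*} [Fintype V] (G : SimpleGraph V) (X : Finset V) : Prop :=
  Odd X.card ∧ 3 ≤ X.card ∧ X.card ≤ 900 ∧ bd G X ≤ 3

/-- many pairwise disjoint bad sets -/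
def ManyBad {V : Type*} [Fintype V] (G : SimpleGraph V) (N : ℝ) : Prop :=
  ∃ F : Finset (Finset V), (∀ X ∈ F, Bad G X) ∧
    (∀ X ∈ F, ∀ Y ∈ F, X ≠ Y → Disjoint X Y) ∧ N ≤ (F.card : ℝ)

/-- close to bipartite: some `S` has at most `m / 50` edges inside `S` and inside its complement,
where `2 m` is the number of vertices -/
def NearBip {V : Type*} [Fintype V] (G : SimpleGraph V) : Prop :=
  ∃ S : Finset V, 50 * (ins G S + ins G Sᶜ) ≤ Fintype.card V

/-- LEAF T: most cubic graphs have few disjoint bad sets -/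
def S_T : Prop := ∀ τ : ℝ, 0 < τ → ∀ δ : ℝ, 0 < δ → ∃ M : ℕ, ∀ m : ℕ, M ≤ m →
  (((cub (Fin (2 * m))).filter (fun G => ManyBad G (τ * m))).card : ℝ) ≤ δ * gg m

/-- LEAF N: most cubic graphs are not close to bipartite -/
def S_N : Prop := ∀ δ : ℝ, 0 < δ → ∃ M : ℕ, ∀ m : ℕ, M ≤ m →
  (((cub (Fin (2 * m))).filter (fun G => NearBip G)).card : ℝ) ≤ δ * gg m

/-- LEAF D: the deterministic part. `m` is half the number of vertices, `R` is a colour class. -/
def S_D : Prop := ∃ ε : ℝ, 0 < ε ∧ ∃ τ : ℝ, 0 < τ ∧ ∃ M : ℕ, ∀ m : ℕ, M ≤ m →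
  ∀ G : SimpleGraph (Fin (2 * m)), Cubic G → Expander G → ¬ ManyBad G (τ * m) → ¬ NearBip G →
  ∀ R B : SimpleGraph (Fin (2 * m)), (∀ u v, G.Adj u v → R.Adj u v ∨ B.Adj u v) →
    (∀ u v, R.Adj u v → G.Adj u v) → (∀ u v, B.Adj u v → G.Adj u v) →
  ∀ a : ℕ, (2 * a : ℝ) ≤ (1 + ε) * m → ∃ H : SimpleGraph (Fin (2 * m)), (H = R ∨ H = B) ∧
    ∃ M : Finset (Sym2 (Fin (2 * m))), (∀ e ∈ M, e ∈ H.edgeSet) ∧ IsMatch M ∧ M.card = a + 1

/-!
### Sketch for LEAF T (all tools in `Pool/Agent/H994R2/K/Pair.lean`, `Expand2.lean`, `Growth.lean`)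

Half edges: `P = Fin (2m) × Fin 3`, pairings `Inv P` (fixed point free involutions), a cubic graph
with a labelling `l : Lab G` gives `perm l ∈ Inv P`, injectively (`perm_inj`), `6 ^ (2m)` labellings
per graph (`card_Lab`); `Dr m = |Inv P|`; `R_lower`: `gg m * 36^m / Dr m ≥ c * m^(-3/2)`.
1. If `G` has a family `F` of `N` disjoint bad sets then the unions `Y = X ∪ X'` of two different
   members are `≥ N (N-1) / 2` different sets with `k = Y.card` even, `6 ≤ k ≤ 1800`,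
   `b = bd G Y ≤ 6` (`bd` of a union is at most the sum), so `b ≤ k`; `Qs l Y` has `3 k - b`
   elements (`Qs_card`) and is stable under `perm l` (`Qs_stable`): `perm l ∈ Stab (Qs l Y)`.
2. For a set `s` of cubic graphs with at least `L` such sets `Y` each:
   `L * (s.card * 36^m) ≤ ∑ Y, #⋃ Q, Stab Q`
   `≤ ∑ (k ≤ 1800) ∑ (b ≤ 6) ∑ (Y of size k) ∑ (Q ⊆ Y × Fin 3 of size 3k-b) |Stab Q|`
   (double count the pairs (labelled graph, Y), compare the proof of `count_le`).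
3. `stab_bound` (k = 2 j + b, k ≤ m): `|Stab Q| * (C(2m,k) * C(m,j)) ≤ Dr m`, and `stab_zero` when
   `k - b` is odd; so the sum is at most `Dr m * ∑ k ∑ b C(3k, 3k-b) = C * Dr m`, `C` a constant.
4. With `L = N (N-1)/2`, `N = τ m`: `s.card / gg m ≤ C * Dr m / (L * 36^m * gg m)
   = C / (L * R m) ≤ C' * m^(3/2) / (τ m)^2 → 0`.

### Sketch for LEAF N

1. For `G` cubic, `l : Lab G`, `S` as in `NearBip`, `A = S × Fin 3`, put
   `T = {x | (x ∈ A) = (perm l x ∈ A)}`, `Q = A \ T`, `Q' = Aᶜ \ T`. Then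
   `T.card = ins G S + ins G Sᶜ =: r ≤ 2m/50`, `perm l` maps `Q` onto `Q'`, `T` onto `T`, so
   `Q.card = Q'.card = q` with `2 q + r = 6 m`.
2. The number of `σ ∈ Inv P` mapping `Q` to `Q'` and `T` to `T` (`P = Q ⊔ Q' ⊔ T`) is at most
   `q! * |Inv T|` (σ is determined by its restriction `Q ≃ Q'` and by the one to `T`; compare
   `card_stab`), and with `r = 2 p` `card_Inv` gives `|Inv T| = (2p)! / (2^p p!)`. Hence
   `q! |Inv T| = q! p! C(2p,p) / 2^p ≤ (q + p)! 2^p = (3m)! 2^p` (`q! p! ≤ (q+p)!`,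
   `C(2p,p) ≤ 4^p`). For odd `r` there are none (`card_Inv_odd`).
3. `S` and `T` determine `Q`, `Q'`. Number of labelled bad graphs (`count_le`):
   `#bad * 36^m ≤ 2^(2m) * ∑ (r ≤ 2m/50) C(6m, r) * 2^(r/2) * (3m)!`.
4. `Dr m = (6m)! / (2^(3m) (3m)!)`, so `(3m)! / Dr m = 8^m / C(6m,3m) ≤ 8^m (6m+1) / 64^m`.
   `C(6m,r) ≤ (31/30)^(6m) 30^r` (`choose_mul_pow_le`), so the ratio is at most
   `(6m+1) (m+1) 2^(-m) (31/30)^(6m) 60^(m/25) ≤ poly(m) * (0.72)^m`. Divide by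
   `R m ≥ c m^(-3/2)` (`R_lower`).
-/

end K9h61.CL
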